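import Mathlib
import Pool.Agent.MP66c0d0.Main

open FirstOrder Pool.Agent.MP66c0d0

namespace Pool.Agent.Results.MP_66c0d0_lc.TwoCyclicOrdersNIP

/-- **Main theorem.** For all real numbers `α`, `β` (in particular for all irrational `α`, `β`
that are linearly independent over the rationals) the complete theory of the structure
`(ℤ; +, C_α, C_β)` is NIP. -/
theorem result.{w} (α β : ℝ) : IsNIP.{w} (@Language.completeTheory Lang ℤ (str α β)) :=
  nip_all α β

end Pool.Agent.Results.MP_66c0d0_lc.TwoCyclicOrdersNIP
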